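import Mathlib
import Pool.Agent.MP_9e3e49_an.H51.Main

namespace Pool.Agent.Results.MP_9e3e49_an.NoCopy

open Pool.Agent.MP_9e3e49_an.H51

/-- No matrix ultraproduct embeds, even non-unitally, into the von Neumann algebra generated
by the symmetric-group ultraproduct. -/
theorem result (U : Ultrafilter ℕ) :
    ¬ ∃ V : Ultrafilter ℕ, (V : Filter ℕ) ≤ Filter.cofinite ∧
      ∃ θ : NonUnitalStarAlgHom ℂ (MU V) (MU U), Function.Injective θ ∧ ∀ x, θ x ∈ WS U := by
  rintro ⟨V, hV, θ, hinj, hθ⟩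
  exact one_ne_zero_MU hV (hinj ((hom_one_eq_zero hV θ hθ).trans (map_zero θ).symm))

end Pool.Agent.Results.MP_9e3e49_an.NoCopy
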